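import Mathlib

/-!
Block C of the proof of the Bollobas and Erdos conjecture (helper90's paper): symmetric flows on a
finite set of states. Definitions and elementary properties.
-/

open Finset

namespace Pool.Agent.H46.BE

/-- A symmetric flow on a finite set of states. -/
structure Fl (St : Type) [Fintype St] (C : ℝ) where
  /-- the flow -/
  W : St → St → ℝ
  /-- the row sums -/
  pi : St → ℝ
  /-- the admissible pairs -/
  J : St → St → Prop
  symm : ∀ s t, W s t = W t s
  nonneg : ∀ s t, 0 ≤ W s t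
  row : ∀ s, ∑ t, W s t = pi s
  tot : ∑ s, pi s = 1
  bd : ∀ s t, W s t ≤ C * (pi s * pi t)
  Jsymm : ∀ s t, J s t → J t s
  Jsup : ∀ s t, ¬ J s t → W s t = 0

namespace Fl

variable {St : Type} [Fintype St] {C : ℝ} (X : Fl St C)

/-- the mass of a set of states -/
def m (A : Finset St) : ℝ := ∑ s ∈ A, X.pi s

/-- the flow from a state into a set -/
def r (u : St) (A : Finset St) : ℝ := ∑ t ∈ A, X.W u t

/-- the flow between two sets -/
def w (A B : Finset St) : ℝ := ∑ s ∈ A, X.r s B

/-- the flow in two steps between two sets -/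
noncomputable def f2 (A B : Finset St) : ℝ := ∑ u, X.r u A * X.r u B / X.pi u

open Classical in
/-- the weight of the paths of length three from s to t whose middle edge is an edge of the flow
and whose outer edges are admissible -/
noncomputable def mu1 (s t : St) : ℝ :=
  ∑ y, ∑ z, if X.J s y ∧ X.J z t then X.W y z else 0

open Classical in
/-- the mass of the edges with small mu1 -/
noncomputable def q (c : ℝ) : ℝ := ∑ s, ∑ t, if X.mu1 s t < c then X.W s t else 0

open Classical in
/-- the states which are good partners of s -/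
noncomputable def nb (c : ℝ) (s : St) : Finset St :=
  univ.filter fun y => X.J s y ∧ c ≤ X.mu1 s y

theorem pi_nonneg (s : St) : 0 ≤ X.pi s := by
  rw [← X.row s]
  exact Finset.sum_nonneg fun t _ => X.nonneg s t

theorem r_nonneg (u : St) (A : Finset St) : 0 ≤ X.r u A :=
  Finset.sum_nonneg fun t _ => X.nonneg u t

theorem r_mono (u : St) {A B : Finset St} (h : A ⊆ B) : X.r u A ≤ X.r u B :=
  Finset.sum_le_sum_of_subset_of_nonneg h fun t _ _ => X.nonneg u t

theorem r_univ (u : St) : X.r u univ = X.pi u := X.row u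

theorem r_le (u : St) (A : Finset St) : X.r u A ≤ X.pi u := by
  rw [← X.r_univ u]
  exact X.r_mono u (Finset.subset_univ A)

theorem r_zero {u : St} (h : X.pi u = 0) (A : Finset St) : X.r u A = 0 :=
  le_antisymm (h ▸ X.r_le u A) (X.r_nonneg u A)

theorem r_mul_div (u : St) (A : Finset St) : X.r u A * X.pi u / X.pi u = X.r u A := by
  by_cases h : X.pi u = 0
  · rw [X.r_zero h, zero_mul, zero_div]
  · exact mul_div_cancel_right₀ _ h

theorem r_bd (u : St) (A : Finset St) : X.r u A ≤ C * (X.pi u * X.m A) := by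
  unfold r m
  rw [Finset.mul_sum, Finset.mul_sum]
  exact Finset.sum_le_sum fun t _ => X.bd u t

theorem m_nonneg (A : Finset St) : 0 ≤ X.m A := Finset.sum_nonneg fun t _ => X.pi_nonneg t

theorem m_mono {A B : Finset St} (h : A ⊆ B) : X.m A ≤ X.m B :=
  Finset.sum_le_sum_of_subset_of_nonneg h fun t _ _ => X.pi_nonneg t

theorem m_univ : X.m univ = 1 := X.tot

theorem m_le_one (A : Finset St) : X.m A ≤ 1 := by
  rw [← X.m_univ]
  exact X.m_mono (Finset.subset_univ A)

theorem w_nonneg (A B : Finset St) : 0 ≤ X.w A B := Finset.sum_nonneg fun t _ => X.r_nonneg t B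

theorem w_comm (A B : Finset St) : X.w A B = X.w B A := by
  unfold w r
  rw [Finset.sum_comm]
  exact Finset.sum_congr rfl fun s _ => Finset.sum_congr rfl fun t _ => X.symm t s

theorem w_mono {A A' B B' : Finset St} (h : A ⊆ A') (h' : B ⊆ B') : X.w A B ≤ X.w A' B' := by
  unfold w
  refine (Finset.sum_le_sum fun s _ => X.r_mono s h').trans ?_
  exact Finset.sum_le_sum_of_subset_of_nonneg h fun t _ _ => X.r_nonneg t B'

theorem w_univ (A : Finset St) : X.w A univ = X.m A :=
  Finset.sum_congr rfl fun s _ => X.r_univ s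

theorem w_le_m (A B : Finset St) : X.w A B ≤ X.m A := by
  rw [← X.w_univ A]
  exact X.w_mono (Finset.Subset.refl A) (Finset.subset_univ B)

theorem w_le_m' (A B : Finset St) : X.w A B ≤ X.m B := by
  rw [X.w_comm]
  exact X.w_le_m B A

theorem sum_r (A : Finset St) : ∑ u, X.r u A = X.m A := by
  have h := X.w_univ A
  rw [X.w_comm] at h
  exact h

section dec

variable [DecidableEq St]

theorem r_sdiff (u : St) {A B : Finset St} (h : A ⊆ B) : X.r u (B \ A) = X.r u B - X.r u A := by
  unfold r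
  rw [← Finset.sum_sdiff h]
  ring

theorem m_sdiff {A B : Finset St} (h : A ⊆ B) : X.m (B \ A) = X.m B - X.m A := by
  unfold m
  rw [← Finset.sum_sdiff h]
  ring

theorem w_sdiff_right (A : Finset St) {B B' : Finset St} (h : B ⊆ B') :
    X.w A (B' \ B) = X.w A B' - X.w A B := by
  unfold w
  rw [← Finset.sum_sub_distrib]
  exact Finset.sum_congr rfl fun s _ => X.r_sdiff s h

theorem f2_sdiff_right (A : Finset St) {B B' : Finset St} (h : B ⊆ B') :
    X.f2 A (B' \ B) = X.f2 A B' - X.f2 A B := by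
  unfold f2
  rw [← Finset.sum_sub_distrib]
  refine Finset.sum_congr rfl fun s _ => ?_
  rw [X.r_sdiff s h]
  ring

end dec

theorem f2_nonneg (A B : Finset St) : 0 ≤ X.f2 A B :=
  Finset.sum_nonneg fun u _ =>
    div_nonneg (mul_nonneg (X.r_nonneg u A) (X.r_nonneg u B)) (X.pi_nonneg u)

theorem f2_comm (A B : Finset St) : X.f2 A B = X.f2 B A :=
  Finset.sum_congr rfl fun u _ => by rw [mul_comm]

theorem f2_mono {A A' B B' : Finset St} (h : A ⊆ A') (h' : B ⊆ B') : X.f2 A B ≤ X.f2 A' B' := by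
  unfold f2
  refine Finset.sum_le_sum fun u _ => ?_
  exact div_le_div_of_nonneg_right
    (mul_le_mul (X.r_mono u h) (X.r_mono u h') (X.r_nonneg u B) (X.r_nonneg u A'))
    (X.pi_nonneg u)

theorem f2_univ (A : Finset St) : X.f2 A univ = X.m A := by
  rw [← X.sum_r A]
  refine Finset.sum_congr rfl fun u _ => ?_
  rw [X.r_univ u]
  exact X.r_mul_div u A

theorem f2_le_m (A B : Finset St) : X.f2 A B ≤ X.m A := by
  rw [← X.f2_univ A]
  exact X.f2_mono (Finset.Subset.refl A) (Finset.subset_univ B)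

/-- the flow in two steps within a small set is small -/
theorem f2_self_le (hC : 0 ≤ C) (A : Finset St) : X.f2 A A ≤ C * X.m A ^ 2 := by
  have h1 : ∀ u, X.r u A * X.r u A / X.pi u ≤ X.r u A * (C * X.m A) := by
    intro u
    rw [mul_div_assoc]
    refine mul_le_mul_of_nonneg_left ?_ (X.r_nonneg u A)
    refine div_le_of_le_mul₀ (X.pi_nonneg u) (mul_nonneg hC (X.m_nonneg A)) ?_
    refine (X.r_bd u A).trans (le_of_eq ?_)
    ring
  refine (Finset.sum_le_sum fun u _ => h1 u).trans (le_of_eq ?_)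
  rw [← Finset.sum_mul, X.sum_r A]
  ring

/-- the inequality of Cauchy and Schwarz -/
theorem cs_gen {ι : Type} (s : Finset ι) (f g : ι → ℝ) (hg : ∀ i ∈ s, 0 ≤ g i)
    (hz : ∀ i ∈ s, g i = 0 → f i = 0) (hs : ∑ i ∈ s, g i = 1) :
    (∑ i ∈ s, f i) ^ 2 ≤ ∑ i ∈ s, f i ^ 2 / g i := by
  classical
  have h1 : ∑ i ∈ s.filter (fun i => g i ≠ 0), f i = ∑ i ∈ s, f i :=
    Finset.sum_filter_of_ne fun i hi hne hgi => hne (hz i hi hgi)
  have h2 : ∑ i ∈ s.filter (fun i => g i ≠ 0), g i = ∑ i ∈ s, g i :=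
    Finset.sum_filter_of_ne fun i _ hne hgi => hne hgi
  have h3 : ∑ i ∈ s.filter (fun i => g i ≠ 0), f i ^ 2 / g i = ∑ i ∈ s, f i ^ 2 / g i :=
    Finset.sum_filter_of_ne fun i _ hne hgi => hne (by rw [hgi, div_zero])
  have h := Finset.sq_sum_div_le_sum_sq_div (R := ℝ) (s.filter fun i => g i ≠ 0) f (g := g)
    (fun i hi => lt_of_le_of_ne (hg i (Finset.mem_filter.1 hi).1)
      (Finset.mem_filter.1 hi).2.symm)
  rw [h1, h2, h3, hs, div_one] at h
  exact h

theorem cs (f : St → ℝ) (hz : ∀ u, X.pi u = 0 → f u = 0) :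
    (∑ u, f u) ^ 2 ≤ ∑ u, f u ^ 2 / X.pi u :=
  cs_gen univ f X.pi (fun i _ => X.pi_nonneg i) (fun i _ => hz i) X.tot

theorem mu1_nonneg (s t : St) : 0 ≤ X.mu1 s t := by
  classical
  unfold mu1
  refine Finset.sum_nonneg fun y _ => Finset.sum_nonneg fun z _ => ?_
  split_ifs
  · exact X.nonneg y z
  · exact le_rfl

theorem mu1_symm (s t : St) : X.mu1 s t = X.mu1 t s := by
  classical
  unfold mu1
  rw [Finset.sum_comm]
  refine Finset.sum_congr rfl fun y _ => Finset.sum_congr rfl fun z _ => ?_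
  have h : (X.J s z ∧ X.J y t) ↔ (X.J t y ∧ X.J z s) :=
    ⟨fun h => ⟨X.Jsymm _ _ h.2, X.Jsymm _ _ h.1⟩, fun h => ⟨X.Jsymm _ _ h.2, X.Jsymm _ _ h.1⟩⟩
  rw [X.symm z y]
  by_cases h1 : X.J s z ∧ X.J y t
  · rw [if_pos h1, if_pos (h.1 h1)]
  · rw [if_neg h1, if_neg (fun h2 => h1 (h.2 h2))]

theorem mu1_le_one (s t : St) : X.mu1 s t ≤ 1 := by
  classical
  rw [← X.tot]
  refine Finset.sum_le_sum fun y _ => ?_
  rw [← X.row y]
  refine Finset.sum_le_sum fun z _ => ?_
  split_ifs
  · exact le_rfl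
  · exact X.nonneg y z

theorem q_nonneg (c : ℝ) : 0 ≤ X.q c := by
  classical
  unfold q
  refine Finset.sum_nonneg fun y _ => Finset.sum_nonneg fun z _ => ?_
  split_ifs
  · exact X.nonneg y z
  · exact le_rfl

end Fl

end Pool.Agent.H46.BE
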