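import Pool.Agent.H46.BE.Fl

/-!
C2 and C3: good edges.
-/

open Finset

namespace Pool.Agent.H46.BE

namespace Fl

variable {St : Type} [Fintype St] {C : ℝ} (X : Fl St C)

/-- C2. The mass q of the edges s t with mu1 s t < c satisfies q ^ 3 ≤ C ^ 2 c. -/
theorem good (hC : 0 ≤ C) {c : ℝ} (hc : 0 ≤ c) : X.q c ^ 3 ≤ C ^ 2 * c := by
  classical
  rcases (X.q_nonneg c).eq_or_lt with h0 | h0
  · rw [← h0]
    have : 0 ≤ C ^ 2 * c := by positivity
    simpa using this
  let M : St → St → ℝ := fun s t => if X.mu1 s t < c then X.W s t else 0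
  have hM0 : ∀ s t, 0 ≤ M s t := by
    intro s t
    change 0 ≤ if X.mu1 s t < c then X.W s t else 0
    split_ifs
    · exact X.nonneg s t
    · exact le_rfl
  have hMW : ∀ s t, M s t ≤ X.W s t := by
    intro s t
    change (if X.mu1 s t < c then X.W s t else 0) ≤ _
    split_ifs
    · exact le_rfl
    · exact X.nonneg s t
  have hMs : ∀ s t, M s t = M t s := by
    intro s t
    change (if X.mu1 s t < c then X.W s t else 0) = if X.mu1 t s < c then X.W t s else 0
    rw [X.mu1_symm s t, X.symm s t]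
  have hq : X.q c = ∑ s, ∑ t, M s t := rfl
  have hMJ : ∀ s t, M s t ≤ C * (X.pi s * X.pi t) * (if X.J s t then 1 else 0) := by
    intro s t
    by_cases h : X.J s t
    · rw [if_pos h, mul_one]
      exact (hMW s t).trans (X.bd s t)
    · rw [if_neg h, mul_zero]
      exact (hMW s t).trans (X.Jsup s t h).le
  let K : St → St → ℝ := fun s u => ∑ t, M s t * M t u / X.pi t
  have hK0 : ∀ s u, 0 ≤ K s u := fun s u =>
    Finset.sum_nonneg fun t _ => div_nonneg (mul_nonneg (hM0 _ _) (hM0 _ _)) (X.pi_nonneg t)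
  have hMz : ∀ s t, X.pi t = 0 → M s t = 0 := by
    intro s t h
    refine le_antisymm ?_ (hM0 s t)
    have h1 := (hMW s t).trans (X.bd s t)
    rw [h] at h1
    simpa using h1
  -- lower bound
  have hlow : X.q c ^ 2 ≤ ∑ s, ∑ u, K s u := by
    have h1 : ∑ s, ∑ u, K s u = ∑ t, (∑ s, M s t) ^ 2 / X.pi t := by
      change ∑ s, ∑ u, ∑ t, M s t * M t u / X.pi t = _
      have h2 : ∀ s, ∑ u, ∑ t, M s t * M t u / X.pi t = ∑ t, M s t * (∑ u, M t u) / X.pi t := by
        intro s
        rw [Finset.sum_comm]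
        refine Finset.sum_congr rfl fun t _ => ?_
        rw [Finset.mul_sum, Finset.sum_div]
      simp_rw [h2]
      rw [Finset.sum_comm]
      refine Finset.sum_congr rfl fun t _ => ?_
      rw [sq, ← Finset.sum_div, ← Finset.sum_mul]
      congr 2
      exact Finset.sum_congr rfl fun u _ => hMs t u
    rw [h1, hq]
    have h3 := X.cs (fun t => ∑ s, M s t) fun t ht => Finset.sum_eq_zero fun s _ => hMz s t ht
    rw [Finset.sum_comm]
    exact h3
  have hlow2 : X.q c ^ 4 ≤ ∑ s, ∑ u, K s u ^ 2 / (X.pi s * X.pi u) := by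
    have h2 : ∑ p ∈ (univ : Finset St) ×ˢ (univ : Finset St), X.pi p.1 * X.pi p.2 = 1 := by
      rw [Finset.sum_product]
      simp_rw [← Finset.mul_sum, X.tot, mul_one]
      exact X.tot
    have h1 := cs_gen ((univ : Finset St) ×ˢ (univ : Finset St))
      (fun p => K p.1 p.2) (fun p => X.pi p.1 * X.pi p.2)
      (fun p _ => mul_nonneg (X.pi_nonneg p.1) (X.pi_nonneg p.2))
      (fun p _ hp => by
        rcases mul_eq_zero.1 hp with h | h
        · refine Finset.sum_eq_zero fun t _ => ?_
          rw [hMs p.1 t, hMz t p.1 h]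
          simp
        · refine Finset.sum_eq_zero fun t _ => ?_
          rw [hMz t p.2 h]
          simp) h2
    rw [Finset.sum_product, Finset.sum_product] at h1
    refine le_trans ?_ h1
    have h3 : X.q c ^ 4 = (X.q c ^ 2) ^ 2 := by ring
    rw [h3]
    exact pow_le_pow_left₀ (sq_nonneg _) hlow 2
  -- upper bound
  have hup : ∑ s, ∑ u, K s u ^ 2 / (X.pi s * X.pi u) ≤ C ^ 2 * (c * X.q c) := by
    have h1 : ∀ s u, K s u ^ 2 / (X.pi s * X.pi u) ≤
        ∑ t, ∑ v, M s t * (C ^ 2 * (if X.J s v ∧ X.J u t then X.W v u else 0)) := by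
      intro s u
      have h2 : K s u ^ 2 / (X.pi s * X.pi u) = ∑ t, ∑ v,
          (M s t * M t u / X.pi t) * (M v s * M u v / X.pi v) / (X.pi s * X.pi u) := by
        change (∑ t, M s t * M t u / X.pi t) ^ 2 / _ = _
        rw [sq, Finset.sum_mul, Finset.sum_div]
        refine Finset.sum_congr rfl fun t _ => ?_
        rw [Finset.mul_sum, Finset.sum_div]
        refine Finset.sum_congr rfl fun v _ => ?_
        rw [hMs s v, hMs v u]
      rw [h2]
      refine Finset.sum_le_sum fun t _ => Finset.sum_le_sum fun v _ => ?_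
      have ht := X.pi_nonneg t
      have hs := X.pi_nonneg s
      have hu := X.pi_nonneg u
      have hv := X.pi_nonneg v
      have h3 : (M s t * M t u / X.pi t) * (M v s * M u v / X.pi v) / (X.pi s * X.pi u) =
          M s t * ((M t u / (X.pi t * X.pi u)) * (M v s / (X.pi v * X.pi s)) * M u v) := by
        ring
      rw [h3]
      refine mul_le_mul_of_nonneg_left ?_ (hM0 s t)
      have h7 : (0 : ℝ) ≤ C * (if X.J t u then 1 else 0) := by
        split_ifs
        · simpa using hC
        · simp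
      have h7' : (0 : ℝ) ≤ C * (if X.J v s then 1 else 0) := by
        split_ifs
        · simpa using hC
        · simp
      have h4 : M t u / (X.pi t * X.pi u) ≤ C * (if X.J t u then 1 else 0) := by
        refine div_le_of_le_mul₀ (mul_nonneg ht hu) h7 ?_
        refine (hMJ t u).trans (le_of_eq ?_)
        ring
      have h5 : M v s / (X.pi v * X.pi s) ≤ C * (if X.J v s then 1 else 0) := by
        refine div_le_of_le_mul₀ (mul_nonneg hv hs) h7' ?_
        refine (hMJ v s).trans (le_of_eq ?_)
        ring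
      have h6 : 0 ≤ M v s / (X.pi v * X.pi s) := div_nonneg (hM0 _ _) (mul_nonneg hv hs)
      have h8 : (M t u / (X.pi t * X.pi u)) * (M v s / (X.pi v * X.pi s)) * M u v ≤
          (C * (if X.J t u then 1 else 0)) * (C * (if X.J v s then 1 else 0)) * X.W u v :=
        mul_le_mul (mul_le_mul h4 h5 h6 h7) (hMW u v) (hM0 u v) (mul_nonneg h7 h7')
      refine h8.trans (le_of_eq ?_)
      rw [X.symm u v]
      by_cases ha : X.J s v
      · by_cases hb : X.J u t
        · rw [if_pos (X.Jsymm _ _ hb), if_pos (X.Jsymm _ _ ha), if_pos ⟨ha, hb⟩]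
          ring
        · rw [if_neg (fun h => hb (X.Jsymm _ _ h)), if_neg (fun h : _ ∧ _ => hb h.2)]
          ring
      · rw [if_neg (fun h : X.J v s => ha (X.Jsymm _ _ h)), if_neg (fun h : _ ∧ _ => ha h.1)]
        ring
    have h9 : ∀ s t, ∑ u, ∑ v, M s t * (C ^ 2 * (if X.J s v ∧ X.J u t then X.W v u else 0)) =
        M s t * (C ^ 2 * X.mu1 s t) := by
      intro s t
      unfold mu1
      rw [Finset.mul_sum, Finset.mul_sum, Finset.sum_comm]
      refine Finset.sum_congr rfl fun v _ => ?_
      rw [Finset.mul_sum, Finset.mul_sum]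
    have h10 : ∀ s t, M s t * (C ^ 2 * X.mu1 s t) ≤ M s t * (C ^ 2 * c) := by
      intro s t
      change (if X.mu1 s t < c then X.W s t else 0) * _ ≤
        (if X.mu1 s t < c then X.W s t else 0) * _
      split_ifs with h
      · exact mul_le_mul_of_nonneg_left (mul_le_mul_of_nonneg_left h.le (sq_nonneg C))
          (X.nonneg s t)
      · simp
    calc ∑ s, ∑ u, K s u ^ 2 / (X.pi s * X.pi u)
        ≤ ∑ s, ∑ u, ∑ t, ∑ v, M s t * (C ^ 2 * (if X.J s v ∧ X.J u t then X.W v u else 0)) :=
          Finset.sum_le_sum fun s _ => Finset.sum_le_sum fun u _ => h1 s u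
      _ = ∑ s, ∑ t, ∑ u, ∑ v, M s t * (C ^ 2 * (if X.J s v ∧ X.J u t then X.W v u else 0)) :=
          Finset.sum_congr rfl fun s _ => Finset.sum_comm
      _ = ∑ s, ∑ t, M s t * (C ^ 2 * X.mu1 s t) :=
          Finset.sum_congr rfl fun s _ => Finset.sum_congr rfl fun t _ => h9 s t
      _ ≤ ∑ s, ∑ t, M s t * (C ^ 2 * c) :=
          Finset.sum_le_sum fun s _ => Finset.sum_le_sum fun t _ => h10 s t
      _ = C ^ 2 * (c * X.q c) := by
          rw [hq]
          simp_rw [← Finset.sum_mul]
          ring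
  have hfin := hlow2.trans hup
  have h4 : X.q c * X.q c ^ 3 ≤ X.q c * (C ^ 2 * c) := by
    calc X.q c * X.q c ^ 3 = X.q c ^ 4 := by ring
      _ ≤ C ^ 2 * (c * X.q c) := hfin
      _ = X.q c * (C ^ 2 * c) := by ring
  exact le_of_mul_le_mul_left h4 h0

open Classical in
/-- C3. Among the states admissible for s many are good partners. -/
theorem nbr (hC : 0 < C) (s : St) (Y : Finset St) (hY : ∀ y ∈ Y, X.J s y) {c : ℝ} (hc0 : 0 ≤ c)
    (hc : c ≤ X.m Y ^ 2 / (2 * C)) :
    X.m Y ^ 2 / (2 * C) ≤ X.m (Y.filter fun y => c ≤ X.mu1 s y) := by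
  classical
  have h1 : X.m Y ^ 2 / C ≤ ∑ y ∈ Y, X.pi y * X.mu1 s y := by
    have h2 : ∀ y ∈ Y, (1 / C) * ∑ z, X.r z Y * X.W z y / X.pi z ≤ X.pi y * X.mu1 s y := by
      intro y hy
      unfold mu1
      rw [Finset.sum_comm, Finset.mul_sum, Finset.mul_sum]
      refine Finset.sum_le_sum fun z _ => ?_
      have h30 : 0 ≤ C * X.pi y * (if X.J z y then 1 else 0) := by
        have := mul_nonneg hC.le (X.pi_nonneg y)
        split_ifs
        · simpa using this
        · simp
      have h3 : X.W z y / X.pi z ≤ C * X.pi y * (if X.J z y then 1 else 0) := by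
        refine div_le_of_le_mul₀ (X.pi_nonneg z) h30 ?_
        by_cases h : X.J z y
        · rw [if_pos h]
          refine (X.bd z y).trans (le_of_eq ?_)
          ring
        · rw [if_neg h, X.Jsup z y h]
          simp
      have h4 : (if X.J z y then (1 : ℝ) else 0) * X.r z Y ≤
          ∑ x, if X.J s x ∧ X.J z y then X.W x z else 0 := by
        by_cases h : X.J z y
        · rw [if_pos h, one_mul]
          unfold r
          rw [← Finset.sum_filter]
          refine (le_of_eq (Finset.sum_congr rfl fun x _ => X.symm z x)).trans ?_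
          refine Finset.sum_le_sum_of_subset_of_nonneg ?_ fun x _ _ => X.nonneg x z
          intro x hx
          rw [Finset.mem_filter]
          exact ⟨Finset.mem_univ x, hY x hx, h⟩
        · rw [if_neg h, zero_mul]
          refine Finset.sum_nonneg fun x _ => ?_
          split_ifs
          · exact X.nonneg x z
          · exact le_rfl
      calc (1 / C) * (X.r z Y * X.W z y / X.pi z) = (1 / C) * (X.r z Y * (X.W z y / X.pi z)) := by
            rw [mul_div_assoc]
        _ ≤ (1 / C) * (X.r z Y * (C * X.pi y * (if X.J z y then 1 else 0))) :=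
            mul_le_mul_of_nonneg_left (mul_le_mul_of_nonneg_left h3 (X.r_nonneg z Y))
              (by positivity)
        _ = X.pi y * ((if X.J z y then (1 : ℝ) else 0) * X.r z Y) := by
            field_simp
        _ ≤ X.pi y * ∑ x, if X.J s x ∧ X.J z y then X.W x z else 0 :=
            mul_le_mul_of_nonneg_left h4 (X.pi_nonneg y)
    refine le_trans ?_ (Finset.sum_le_sum h2)
    rw [← Finset.mul_sum, Finset.sum_comm]
    have h5 : ∀ z, ∑ y ∈ Y, X.r z Y * X.W z y / X.pi z = X.r z Y ^ 2 / X.pi z := by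
      intro z
      rw [← Finset.sum_div, ← Finset.mul_sum, sq]
      rfl
    simp_rw [h5]
    have h6 := X.cs (fun z => X.r z Y) fun z hz => X.r_zero hz Y
    rw [X.sum_r Y] at h6
    rw [div_eq_inv_mul, one_div]
    exact mul_le_mul_of_nonneg_left h6 (by positivity)
  have h7 : ∑ y ∈ Y, X.pi y * X.mu1 s y ≤ X.m (Y.filter fun y => c ≤ X.mu1 s y) + c := by
    have h9 : ∀ y ∈ Y, X.pi y * X.mu1 s y ≤
        (if c ≤ X.mu1 s y then X.pi y else 0) + c * X.pi y := by
      intro y _
      by_cases h : c ≤ X.mu1 s y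
      · rw [if_pos h]
        have h11 := mul_le_mul_of_nonneg_left (X.mu1_le_one s y) (X.pi_nonneg y)
        have h12 : 0 ≤ c * X.pi y := mul_nonneg hc0 (X.pi_nonneg y)
        linarith
      · rw [if_neg h]
        have h11 := mul_le_mul_of_nonneg_left (not_le.1 h).le (X.pi_nonneg y)
        linarith
    refine (Finset.sum_le_sum h9).trans ?_
    rw [Finset.sum_add_distrib, ← Finset.mul_sum]
    refine add_le_add ?_ ?_
    · rw [← Finset.sum_filter]
      exact le_rfl
    · have := mul_le_mul_of_nonneg_left (X.m_le_one Y) hc0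
      rw [mul_one] at this
      exact this
  have h13 : X.m Y ^ 2 / C = X.m Y ^ 2 / (2 * C) + X.m Y ^ 2 / (2 * C) := by
    field_simp
    ring
  rw [h13] at h1
  linarith

end Fl

end Pool.Agent.H46.BE
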