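import Pool.Agent.H46.BE.Parts

/-!
C5: the involution of the parts.
-/

open Finset

namespace Pool.Agent.H46.BE

namespace Fl

set_option linter.unusedSectionVars false

variable {St : Type} [Fintype St] [DecidableEq St] {C : ℝ} (X : Fl St C)

theorem sum_r_cls {r : ℕ} (p : St → Fin r) (u : St) : ∑ j, X.r u (cls p j) = X.pi u := by
  unfold Fl.r cls
  rw [← X.row u]
  exact Finset.sum_fiberwise_of_maps_to (fun s _ => Finset.mem_univ (p s)) _

theorem sum_m_cls' {r : ℕ} (p : St → Fin r) : ∑ j, X.m (cls p j) = 1 := by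
  unfold m cls
  rw [← X.tot]
  exact Finset.sum_fiberwise_of_maps_to (fun s _ => Finset.mem_univ (p s)) _

/-- the cross flow through a state is at least its flow outside the main part -/
theorem cross_ge {r : ℕ} (p : St → Fin r) (M : St → Fin r)
    (hM : ∀ u j, X.r u (cls p j) ≤ X.r u (cls p (M u))) :
    ∑ u, (X.pi u - X.r u (cls p (M u))) ≤ X.cross p := by
  unfold cross
  refine Finset.sum_le_sum fun u _ => ?_
  have h1 : ∑ s, ∑ t, (if p s = p t then 0 else X.W u s * X.W u t / X.pi u) =
      (X.pi u * X.pi u - ∑ j, X.r u (cls p j) * X.r u (cls p j)) / X.pi u := by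
    have h2 : ∀ s t, (if p s = p t then 0 else X.W u s * X.W u t / X.pi u) =
        X.W u s * X.W u t / X.pi u - (if p t = p s then X.W u s * X.W u t else 0) / X.pi u := by
      intro s t
      by_cases h : p s = p t
      · rw [if_pos h, if_pos h.symm]
        ring
      · rw [if_neg h, if_neg (fun h' => h h'.symm)]
        ring
    simp_rw [h2, Finset.sum_sub_distrib, ← Finset.sum_div]
    rw [sub_div]
    congr 2
    · rw [← Finset.sum_mul_sum, X.row u]
    · have h3 : ∀ s, ∑ t, (if p t = p s then X.W u s * X.W u t else 0) =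
          X.W u s * X.r u (cls p (p s)) := by
        intro s
        rw [← Finset.sum_filter, ← Finset.mul_sum]
        rfl
      simp_rw [h3]
      rw [← Finset.sum_fiberwise_of_maps_to (s := univ) (t := univ) (g := p)
        (fun s _ => Finset.mem_univ (p s))]
      refine Finset.sum_congr rfl fun j _ => ?_
      rw [show X.r u (cls p j) * X.r u (cls p j) = ∑ s ∈ univ.filter (fun s => p s = j),
        X.W u s * X.r u (cls p j) by rw [← Finset.sum_mul]; rfl]
      refine Finset.sum_congr rfl fun s hs => ?_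
      rw [(Finset.mem_filter.1 hs).2]
  rw [h1]
  rcases (X.pi_nonneg u).eq_or_lt with hu | hu
  · rw [← hu, div_zero]
    have := X.r_nonneg u (cls p (M u))
    linarith
  rw [le_div_iff₀ hu]
  have h4 : ∑ j, X.r u (cls p j) * X.r u (cls p j) ≤ X.r u (cls p (M u)) * X.pi u := by
    rw [← X.sum_r_cls p u, Finset.mul_sum]
    exact Finset.sum_le_sum fun j _ => mul_le_mul_of_nonneg_right (hM u j) (X.r_nonneg u _)
  nlinarith

/-- the flow in two steps from a part to the outside is at most the cross flow -/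
theorem f2_out_le {r : ℕ} (p : St → Fin r) (j : Fin r) :
    X.f2 (cls p j) (univ \ cls p j) ≤ X.cross p := by
  rw [X.f2_eq]
  unfold cross
  refine Finset.sum_le_sum fun u _ => Finset.sum_le_sum fun s _ => Finset.sum_le_sum fun t _ => ?_
  have h0 : 0 ≤ X.W u s * X.W u t / X.pi u :=
    div_nonneg (mul_nonneg (X.nonneg _ _) (X.nonneg _ _)) (X.pi_nonneg u)
  by_cases h : s ∈ cls p j ∧ t ∈ univ \ cls p j
  · rw [if_pos h, if_neg]
    intro h1
    refine (Finset.mem_sdiff.1 h.2).2 ?_
    rw [mem_cls, ← h1, mem_cls.1 h.1]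
  · rw [if_neg h]
    split_ifs
    · exact le_rfl
    · exact h0

/-- a set of small mass with small flow to the outside is very small -/
theorem small (hC : 0 < C) {B : Finset St} {b : ℝ} (h1 : X.m B ≤ 1 / (2 * C))
    (h2 : X.f2 B (univ \ B) ≤ b) : X.m B ≤ 2 * b := by
  have h3 : X.m B = X.f2 B B + X.f2 B (univ \ B) := by
    rw [X.f2_sdiff_right B (Finset.subset_univ B), X.f2_univ]
    ring
  have h4 := X.f2_self_le hC.le B
  have h5 : C * X.m B ^ 2 ≤ X.m B / 2 := by
    have h6 : C * X.m B ≤ 1 / 2 := by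
      rw [le_div_iff₀ (by positivity : (0 : ℝ) < 2 * C)] at h1
      linarith
    have h7 := mul_le_mul_of_nonneg_right h6 (X.m_nonneg B)
    calc C * X.m B ^ 2 = C * X.m B * X.m B := by ring
      _ ≤ 1 / 2 * X.m B := h7
      _ = X.m B / 2 := by ring
  linarith

end Fl

/-- C5. The parts are paired by the flow. -/
theorem Fl.IsParts.invol {St : Type} [Fintype St] [DecidableEq St] {C : ℝ} {X : Fl St C}
    (hC : 0 < C) {th tau e : ℝ} (hth : 0 < th) (hthC : th ≤ 1 / (2 * C)) {r : ℕ} {p : St → Fin r}
    (hp : X.IsParts th tau e p) (he1 : e < tau) (he2 : 10 * e < th) (he3 : 4 * e < th ^ 2) :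
    ∃ psi : Fin r → Fin r, (∀ j, psi (psi j) = j) ∧
      ∀ j, X.w (cls p j) (univ \ cls p (psi j)) ≤ 5 * e := by
  classical
  have he0 : 0 ≤ e := (X.cross_nonneg p).trans hp.cr
  have hne : ∀ _ : St, Nonempty (Fin r) := fun u => ⟨p u⟩
  have hM : ∀ u, ∃ j, ∀ j', X.r u (cls p j') ≤ X.r u (cls p j) := by
    intro u
    have := hne u
    exact Finite.exists_max fun j => X.r u (cls p j)
  choose M hM using hM
  have hd0 : ∀ u, 0 ≤ X.pi u - X.r u (cls p (M u)) := fun u => by
    have := X.r_le u (cls p (M u))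
    linarith
  have hd : ∑ u, (X.pi u - X.r u (cls p (M u))) ≤ e := (X.cross_ge p M hM).trans hp.cr
  have hdA : ∀ A : Finset St, ∑ u ∈ A, (X.pi u - X.r u (cls p (M u))) ≤ e := fun A =>
    (Finset.sum_le_sum_of_subset_of_nonneg (Finset.subset_univ A) fun u _ _ => hd0 u).trans hd
  let B : Fin r → Fin r → Finset St := fun j k => (cls p j).filter fun u => M u = k
  have hBs : ∀ j k, B j k ⊆ cls p j := fun j k => Finset.filter_subset _ _
  have hBm : ∀ j k u, u ∈ B j k ↔ p u = j ∧ M u = k := by
    intro j k u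
    change u ∈ (cls p j).filter (fun u => M u = k) ↔ _
    rw [Finset.mem_filter, mem_cls]
  -- outside flow of B and inside flow of the rest
  have hout : ∀ j k, X.w (B j k) (univ \ cls p k) = ∑ u ∈ B j k, (X.pi u - X.r u (cls p (M u))) := by
    intro j k
    rw [X.w_sdiff_right _ (Finset.subset_univ _), X.w_univ]
    unfold Fl.w Fl.m
    rw [← Finset.sum_sub_distrib]
    refine Finset.sum_congr rfl fun u hu => ?_
    rw [((hBm j k u).1 hu).2]
  have hin : ∀ j k, X.w (cls p j \ B j k) (cls p k) ≤
      ∑ u ∈ cls p j \ B j k, (X.pi u - X.r u (cls p (M u))) := by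
    intro j k
    refine Finset.sum_le_sum fun u hu => ?_
    rw [Finset.mem_sdiff, hBm, mem_cls] at hu
    have h1 : M u ≠ k := fun h => hu.2 ⟨hu.1, h⟩
    have h2 : cls p k ⊆ univ \ cls p (M u) := by
      intro s hs
      rw [Finset.mem_sdiff, mem_cls]
      exact ⟨Finset.mem_univ s, fun h => h1 (by rw [← h, mem_cls.1 hs])⟩
    have h3 := X.r_mono u h2
    rw [X.r_sdiff u (Finset.subset_univ _), X.r_univ] at h3
    exact h3
  have hf2 : ∀ j k, X.f2 (B j k) (cls p j \ B j k) ≤ e := by
    intro j k
    have h1 : X.f2 (B j k) (cls p j \ B j k) ≤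
        X.w (cls p k) (cls p j \ B j k) + X.w (univ \ cls p k) (B j k) := by
      have h2 : X.f2 (B j k) (cls p j \ B j k) =
          ∑ u ∈ univ \ cls p k, X.r u (B j k) * X.r u (cls p j \ B j k) / X.pi u +
          ∑ u ∈ cls p k, X.r u (B j k) * X.r u (cls p j \ B j k) / X.pi u :=
        (Finset.sum_sdiff (Finset.subset_univ (cls p k))).symm
      rw [h2, add_comm]
      refine add_le_add ?_ ?_
      · refine Finset.sum_le_sum fun u _ => ?_
        refine div_le_of_le_mul₀ (X.pi_nonneg u) (X.r_nonneg u _) ?_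
        rw [mul_comm]
        exact mul_le_mul_of_nonneg_left (X.r_le u _) (X.r_nonneg u _)
      · refine Finset.sum_le_sum fun u _ => ?_
        refine div_le_of_le_mul₀ (X.pi_nonneg u) (X.r_nonneg u _) ?_
        exact mul_le_mul_of_nonneg_left (X.r_le u _) (X.r_nonneg u _)
    rw [X.w_comm (cls p k), X.w_comm (univ \ cls p k), hout] at h1
    have h3 := hin j k
    have h4 : ∑ u ∈ cls p j \ B j k, (X.pi u - X.r u (cls p (M u))) +
        ∑ u ∈ B j k, (X.pi u - X.r u (cls p (M u))) ≤ e := by
      rw [Finset.sum_sdiff (hBs j k)]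
      exact hdA _
    linarith
  -- small sets are very small
  have hcmp : ∀ j k, X.f2 (B j k) (univ \ B j k) ≤ 2 * e := by
    intro j k
    have h1 : X.f2 (B j k) (univ \ B j k) =
        X.f2 (B j k) (cls p j \ B j k) + X.f2 (B j k) (univ \ cls p j) := by
      rw [X.f2_sdiff_right _ (hBs j k), X.f2_sdiff_right _ (Finset.subset_univ _),
        X.f2_sdiff_right _ (Finset.subset_univ _)]
      ring
    have h2 : X.f2 (B j k) (univ \ cls p j) ≤ e :=
      ((X.f2_mono (hBs j k) (Finset.Subset.refl _)).trans (X.f2_out_le p j)).trans hp.cr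
    have h3 := hf2 j k
    linarith
  have hcmp' : ∀ j k, X.f2 (cls p j \ B j k) (univ \ (cls p j \ B j k)) ≤ 2 * e := by
    intro j k
    have h1 : X.f2 (cls p j \ B j k) (univ \ (cls p j \ B j k)) =
        X.f2 (cls p j \ B j k) (B j k) + X.f2 (cls p j \ B j k) (univ \ cls p j) := by
      rw [X.f2_sdiff_right _ (Finset.subset_univ _), X.f2_sdiff_right _ (hBs j k),
        X.f2_sdiff_right _ (Finset.subset_univ _)]
      ring
    have h2 : X.f2 (cls p j \ B j k) (univ \ cls p j) ≤ e :=
      ((X.f2_mono Finset.sdiff_subset (Finset.Subset.refl _)).trans (X.f2_out_le p j)).trans hp.cr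
    have h3 := hf2 j k
    rw [X.f2_comm] at h3
    linarith
  have hex : ∀ j, ∃ k, X.m (cls p j \ B j k) ≤ 4 * e := by
    intro j
    by_contra hcon
    push Not at hcon
    have hall : ∀ k, X.m (B j k) ≤ 4 * e := by
      intro k
      have h1 : ¬ (X.m (cls p j \ B j k) < th) := by
        intro h2
        have h3 := X.small hC (h2.le.trans hthC) (hcmp' j k)
        have h4 := hcon k
        linarith
      have h5 : X.m (B j k) < th := by
        by_contra h6
        have h7 := hp.inn j (B j k) (hBs j k) (not_lt.1 h6) (not_lt.1 h1)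
        have h8 := hf2 j k
        linarith
      have h9 := X.small hC (h5.le.trans hthC) (hcmp j k)
      linarith
    have h10 : ∑ k, X.m (B j k) = X.m (cls p j) := by
      unfold Fl.m
      exact Finset.sum_fiberwise_of_maps_to (fun s _ => Finset.mem_univ (M s)) _
    have h11 : X.m (cls p j) ≤ r * (4 * e) := by
      rw [← h10]
      refine (Finset.sum_le_sum fun k _ => hall k).trans (le_of_eq ?_)
      rw [Finset.sum_const, Finset.card_univ, Fintype.card_fin, nsmul_eq_mul]
    have h12 : (r : ℝ) * th ≤ 1 := by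
      rw [← X.sum_m_cls' p]
      refine le_trans (le_of_eq ?_) (Finset.sum_le_sum fun j _ => hp.big j)
      rw [Finset.sum_const, Finset.card_univ, Fintype.card_fin, nsmul_eq_mul]
    have h13 := hp.big j
    have h14 : th * th ≤ (r * th) * (4 * e) := by
      calc th * th ≤ (r * (4 * e)) * th := mul_le_mul_of_nonneg_right (h13.trans h11) hth.le
        _ = (r * th) * (4 * e) := by ring
    have h15 : (r * th) * (4 * e) ≤ 1 * (4 * e) :=
      mul_le_mul_of_nonneg_right h12 (by linarith)
    nlinarith
  choose psi hpsi using hex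
  have hw : ∀ j, X.w (cls p j) (univ \ cls p (psi j)) ≤ 5 * e := by
    intro j
    have h1 : X.w (cls p j) (univ \ cls p (psi j)) =
        X.w (cls p j \ B j (psi j)) (univ \ cls p (psi j)) +
        X.w (B j (psi j)) (univ \ cls p (psi j)) :=
      (Finset.sum_sdiff (hBs j (psi j))).symm
    have h2 := (X.w_le_m (cls p j \ B j (psi j)) (univ \ cls p (psi j))).trans (hpsi j)
    have h3 : X.w (B j (psi j)) (univ \ cls p (psi j)) ≤ e := by
      rw [hout]
      exact hdA _
    linarith
  refine ⟨psi, ?_, hw⟩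
  intro j
  by_contra hne'
  have h1 : X.w (cls p (psi j)) (cls p j) ≤ 5 * e := by
    refine (X.w_mono (Finset.Subset.refl _) ?_).trans (hw (psi j))
    intro s hs
    rw [Finset.mem_sdiff, mem_cls]
    exact ⟨Finset.mem_univ s, fun h => hne' (by rw [← h, mem_cls.1 hs])⟩
  have h2 := hw j
  rw [X.w_sdiff_right _ (Finset.subset_univ _), X.w_univ] at h2
  rw [X.w_comm] at h1
  have h3 := hp.big j
  linarith

end Pool.Agent.H46.BE
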