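import Pool.Agent.H46.BE.Good
import Pool.Agent.H46.BE.Invol

/-!
C6: the joining lemma.
-/

open Finset

namespace Pool.Agent.H46.BE

namespace Fl

variable {St : Type} [Fintype St] {C : ℝ} (X : Fl St C)

open Classical in
/-- the layers: states from which the set Nt can be reached by few good exchanges -/
noncomputable def lay (c eta : ℝ) (Nt : Finset St) : ℕ → Finset St
  | 0 => univ.filter fun s => eta ≤ X.w (X.nb c s) Nt
  | k + 1 => univ.filter fun s => s ∈ lay c eta Nt k ∨ eta ≤ X.w (X.nb c s) (lay c eta Nt k)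

theorem lay_mono (c eta : ℝ) (Nt : Finset St) (k : ℕ) :
    X.lay c eta Nt k ⊆ X.lay c eta Nt (k + 1) := by
  classical
  intro s hs
  change s ∈ univ.filter fun s => s ∈ X.lay c eta Nt k ∨ eta ≤ X.w (X.nb c s) (X.lay c eta Nt k)
  rw [Finset.mem_filter]
  exact ⟨Finset.mem_univ s, Or.inl hs⟩

theorem mem_lay_zero (c eta : ℝ) (Nt : Finset St) (s : St) :
    s ∈ X.lay c eta Nt 0 ↔ eta ≤ X.w (X.nb c s) Nt := by
  classical
  change s ∈ univ.filter (fun s => eta ≤ X.w (X.nb c s) Nt) ↔ _
  rw [Finset.mem_filter]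
  exact ⟨fun h => h.2, fun h => ⟨Finset.mem_univ s, h⟩⟩

theorem mem_lay_succ (c eta : ℝ) (Nt : Finset St) (k : ℕ) (s : St) :
    s ∈ X.lay c eta Nt (k + 1) ↔
      s ∈ X.lay c eta Nt k ∨ eta ≤ X.w (X.nb c s) (X.lay c eta Nt k) := by
  classical
  change s ∈ univ.filter (fun s => s ∈ X.lay c eta Nt k ∨
    eta ≤ X.w (X.nb c s) (X.lay c eta Nt k)) ↔ _
  rw [Finset.mem_filter]
  exact ⟨fun h => h.2, fun h => ⟨Finset.mem_univ s, h⟩⟩

/-- the good flow in two steps is a lower bound for the exchanges -/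
theorem good_flow (hC : 0 < C) (c : ℝ) (A Z : Finset St) :
    X.f2 A Z - X.q c ≤ C * ∑ s ∈ A, X.pi s * X.w (X.nb c s) Z := by
  classical
  let g : St → St → ℝ := fun s y => if X.mu1 s y < c then 0 else X.W s y
  let b : St → St → ℝ := fun s y => if X.mu1 s y < c then X.W s y else 0
  have hgb : ∀ s y, X.W s y = g s y + b s y := by
    intro s y
    change _ = (if X.mu1 s y < c then 0 else X.W s y) + (if X.mu1 s y < c then X.W s y else 0)
    split_ifs <;> simp
  have hb0 : ∀ s y, 0 ≤ b s y := by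
    intro s y
    change 0 ≤ if X.mu1 s y < c then X.W s y else 0
    split_ifs
    · exact X.nonneg s y
    · exact le_rfl
  have h1 : X.f2 A Z = ∑ s ∈ A, ∑ y, g s y * (X.r y Z / X.pi y) +
      ∑ s ∈ A, ∑ y, b s y * (X.r y Z / X.pi y) := by
    unfold f2
    rw [← Finset.sum_add_distrib]
    simp_rw [← Finset.sum_add_distrib, ← add_mul, ← hgb]
    rw [Finset.sum_comm]
    refine Finset.sum_congr rfl fun y _ => ?_
    rw [← Finset.sum_mul, mul_div_assoc]
    congr 1
    exact Finset.sum_congr rfl fun s _ => X.symm y s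
  have h2 : ∑ s ∈ A, ∑ y, b s y * (X.r y Z / X.pi y) ≤ X.q c := by
    unfold q
    refine (Finset.sum_le_sum fun s _ => Finset.sum_le_sum fun y _ =>
      mul_le_of_le_one_right (hb0 s y) ?_).trans ?_
    · exact div_le_one_of_le₀ (X.r_le y Z) (X.pi_nonneg y)
    · exact Finset.sum_le_sum_of_subset_of_nonneg (Finset.subset_univ A) fun s _ _ =>
        Finset.sum_nonneg fun y _ => hb0 s y
  have h3 : ∑ s ∈ A, ∑ y, g s y * (X.r y Z / X.pi y) ≤
      C * ∑ s ∈ A, X.pi s * X.w (X.nb c s) Z := by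
    rw [Finset.mul_sum]
    refine Finset.sum_le_sum fun s _ => ?_
    unfold w
    rw [← mul_assoc, Finset.mul_sum]
    have h4 : ∑ y ∈ X.nb c s, C * X.pi s * X.r y Z =
        ∑ y, if X.J s y ∧ c ≤ X.mu1 s y then C * X.pi s * X.r y Z else 0 := by
      unfold nb
      rw [Finset.sum_filter]
    rw [h4]
    refine Finset.sum_le_sum fun y _ => ?_
    have hr : 0 ≤ X.r y Z / X.pi y := div_nonneg (X.r_nonneg y Z) (X.pi_nonneg y)
    change (if X.mu1 s y < c then 0 else X.W s y) * _ ≤ _
    by_cases hJ : X.J s y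
    · by_cases hm : X.mu1 s y < c
      · rw [if_pos hm, if_neg (fun h => absurd h.2 (not_le.2 hm)), zero_mul]
      · rw [if_neg hm, if_pos ⟨hJ, not_lt.1 hm⟩]
        calc X.W s y * (X.r y Z / X.pi y) ≤ C * (X.pi s * X.pi y) * (X.r y Z / X.pi y) :=
              mul_le_mul_of_nonneg_right (X.bd s y) hr
          _ = C * X.pi s * (X.r y Z * X.pi y / X.pi y) := by ring
          _ = C * X.pi s * X.r y Z := by rw [X.r_mul_div]
    · rw [if_neg (fun h : X.J s y ∧ c ≤ X.mu1 s y => hJ h.1), X.Jsup s y hJ]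
      simp
  linarith

open Classical in
/-- many states of A can exchange into Z -/
theorem many (hC : 0 < C) {c eta del : ℝ} (heta : 0 ≤ eta) (A Z : Finset St)
    (h : del ≤ X.f2 A Z - X.q c) :
    del / C ≤ X.m (A.filter fun s => eta ≤ X.w (X.nb c s) Z) + eta := by
  have h1 := h.trans (X.good_flow hC c A Z)
  have h2 : ∑ s ∈ A, X.pi s * X.w (X.nb c s) Z ≤
      X.m (A.filter fun s => eta ≤ X.w (X.nb c s) Z) + eta := by
    have h3 : ∀ s ∈ A, X.pi s * X.w (X.nb c s) Z ≤
        (if eta ≤ X.w (X.nb c s) Z then X.pi s else 0) + eta * X.pi s := by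
      intro s _
      have hs := X.pi_nonneg s
      by_cases h4 : eta ≤ X.w (X.nb c s) Z
      · rw [if_pos h4]
        have h5 : X.w (X.nb c s) Z ≤ 1 := (X.w_le_m _ _).trans (X.m_le_one _)
        have h6 := mul_le_mul_of_nonneg_left h5 hs
        have h7 : 0 ≤ eta * X.pi s := mul_nonneg heta hs
        linarith
      · rw [if_neg h4]
        have h6 := mul_le_mul_of_nonneg_left (not_le.1 h4).le hs
        linarith
    refine (Finset.sum_le_sum h3).trans ?_
    rw [Finset.sum_add_distrib, ← Finset.mul_sum, ← Finset.sum_filter]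
    refine add_le_add le_rfl ?_
    have h8 := mul_le_mul_of_nonneg_left (X.m_le_one A) heta
    rw [mul_one] at h8
    exact h8
  rw [div_le_iff₀ hC]
  have h9 := mul_le_mul_of_nonneg_left h2 hC.le
  linarith

end Fl

open Classical in
/-- C6. The joining lemma. -/
theorem Fl.IsParts.join {St : Type} [Fintype St] [DecidableEq St] {C : ℝ} {X : Fl St C}
    (hC : 0 < C) {th tau e : ℝ} {r : ℕ} {p : St → Fin r}
    (hp : X.IsParts th tau e p) {psi : Fin r → Fin r} {ea : ℝ}
    (hpsi : ∀ j, psi (psi j) = j) (hw : ∀ j, X.w (cls p j) (univ \ cls p (psi j)) ≤ ea)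
    {c c2 q0 eta : ℝ} (hq : X.q c ≤ q0) (heta : 0 ≤ eta) (htau : 0 < tau)
    (h1 : e + q0 ≤ c2 / 2) (h2 : q0 ≤ tau / 2) (h3 : ea + th ≤ c2 / 2)
    (h4 : eta ≤ c2 / (2 * C) - th) (h5 : eta ≤ tau / (4 * C)) (h6 : eta ≤ c2 / 2) {K : ℕ}
    (hK : 4 * C / tau < K) (j : Fin r) (Na Nt : Finset St)
    (ha : c2 ≤ X.m ((cls p (psi j)).filter fun y => y ∈ Na))
    (ht : c2 ≤ X.m ((cls p j).filter fun y => y ∈ Nt)) :
    ∃ k ≤ K, eta ≤ X.w Na (X.lay c eta Nt k) := by
  -- level 0
  have hG0 : th ≤ X.m ((cls p j).filter fun s => s ∈ X.lay c eta Nt 0) := by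
    have hZ : (cls p j).filter (fun y => y ∈ Nt) ⊆ cls p j := Finset.filter_subset _ _
    have hf : X.f2 (cls p j) ((cls p j).filter fun y => y ∈ Nt) ≥ c2 - e := by
      have h7 := X.f2_sdiff_right ((cls p j).filter fun y => y ∈ Nt)
        (Finset.subset_univ (cls p j))
      rw [X.f2_univ, X.f2_comm _ (cls p j)] at h7
      have h8 : X.f2 ((cls p j).filter fun y => y ∈ Nt) (univ \ cls p j) ≤ e :=
        ((X.f2_mono hZ (Finset.Subset.refl _)).trans (X.f2_out_le p j)).trans hp.cr
      linarith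
    have h9 := X.many hC (c := c) heta (cls p j) ((cls p j).filter fun y => y ∈ Nt)
      (del := c2 / 2) (by linarith)
    have h10 : X.m ((cls p j).filter fun s => eta ≤
        X.w (X.nb c s) ((cls p j).filter fun y => y ∈ Nt)) ≤
        X.m ((cls p j).filter fun s => s ∈ X.lay c eta Nt 0) := by
      refine X.m_mono fun s hs => ?_
      rw [Finset.mem_filter] at hs ⊢
      refine ⟨hs.1, ?_⟩
      rw [X.mem_lay_zero]
      refine hs.2.trans (X.w_mono (Finset.Subset.refl _) ?_)
      intro y hy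
      exact (Finset.mem_filter.1 hy).2
    have h11 : c2 / 2 / C = c2 / (2 * C) := by
      rw [div_div]
    rw [h11] at h9
    linarith
  -- growth
  have hgrow : ∀ k : ℕ, (∃ k' ≤ k, X.m (cls p j \ X.lay c eta Nt k') < th) ∨
      (th ≤ X.m ((cls p j).filter fun s => s ∈ X.lay c eta Nt k) ∧
        (k : ℝ) * (tau / (4 * C)) ≤ X.m ((cls p j).filter fun s => s ∈ X.lay c eta Nt k)) := by
    intro k
    induction k with
    | zero =>
      right
      refine ⟨hG0, ?_⟩
      rw [Nat.cast_zero, zero_mul]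
      exact X.m_nonneg _
    | succ k ih =>
      rcases ih with ⟨k', hk', hlt⟩ | ⟨hth, hk⟩
      · exact Or.inl ⟨k', by omega, hlt⟩
      by_cases hsm : X.m (cls p j \ X.lay c eta Nt k) < th
      · exact Or.inl ⟨k, by omega, hsm⟩
      right
      have hU : (cls p j).filter (fun s => s ∈ X.lay c eta Nt k) ⊆ cls p j :=
        Finset.filter_subset _ _
      have hU' : cls p j \ (cls p j).filter (fun s => s ∈ X.lay c eta Nt k) =
          cls p j \ X.lay c eta Nt k := by
        ext s
        simp only [Finset.mem_sdiff, Finset.mem_filter]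
        tauto
      have h7 := hp.inn j ((cls p j).filter fun s => s ∈ X.lay c eta Nt k) hU hth (by
        rw [hU']
        exact not_lt.1 hsm)
      rw [hU', X.f2_comm] at h7
      have h8 := X.many hC (c := c) heta (cls p j \ X.lay c eta Nt k)
        ((cls p j).filter fun s => s ∈ X.lay c eta Nt k) (del := tau / 2) (by linarith)
      have h9 : tau / 2 / C = tau / (4 * C) + tau / (4 * C) := by
        field_simp
        ring
      rw [h9] at h8
      have hsub : (cls p j).filter (fun s => s ∈ X.lay c eta Nt k) ⊆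
          (cls p j).filter (fun s => s ∈ X.lay c eta Nt (k + 1)) := by
        intro s hs
        rw [Finset.mem_filter] at hs ⊢
        exact ⟨hs.1, X.lay_mono c eta Nt k hs.2⟩
      have hnew : (cls p j \ X.lay c eta Nt k).filter (fun s => eta ≤ X.w (X.nb c s)
          ((cls p j).filter fun s => s ∈ X.lay c eta Nt k)) ⊆
          ((cls p j).filter (fun s => s ∈ X.lay c eta Nt (k + 1))) \
            ((cls p j).filter fun s => s ∈ X.lay c eta Nt k) := by
        intro s hs
        rw [Finset.mem_filter, Finset.mem_sdiff] at hs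
        rw [Finset.mem_sdiff, Finset.mem_filter, Finset.mem_filter]
        refine ⟨⟨hs.1.1, ?_⟩, fun h => hs.1.2 h.2⟩
        rw [X.mem_lay_succ]
        refine Or.inr (hs.2.trans (X.w_mono (Finset.Subset.refl _) ?_))
        intro y hy
        exact (Finset.mem_filter.1 hy).2
      have h10 := X.m_mono hnew
      rw [X.m_sdiff hsub] at h10
      refine ⟨hth.trans (X.m_mono hsub), ?_⟩
      push_cast
      rw [add_mul, one_mul]
      linarith
  have hfin : ∃ k ≤ K, X.m (cls p j \ X.lay c eta Nt k) < th := by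
    rcases hgrow K with h | ⟨_, h⟩
    · exact h
    · exfalso
      have h7 := h.trans (X.m_le_one _)
      rw [div_lt_iff₀ htau] at hK
      have h8 : (K : ℝ) * (tau / (4 * C)) = (K * tau) / (4 * C) := by ring
      rw [h8, div_le_one (by positivity)] at h7
      linarith
  obtain ⟨k, hk, hlt⟩ := hfin
  refine ⟨k, hk, ?_⟩
  have hY : (cls p (psi j)).filter (fun y => y ∈ Na) ⊆ cls p (psi j) := Finset.filter_subset _ _
  have hY' : (cls p (psi j)).filter (fun y => y ∈ Na) ⊆ Na := fun y hy =>
    (Finset.mem_filter.1 hy).2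
  refine le_trans ?_ (X.w_mono hY' (Finset.Subset.refl _))
  have h7 : X.m ((cls p (psi j)).filter fun y => y ∈ Na) ≤
      X.w ((cls p (psi j)).filter fun y => y ∈ Na) (X.lay c eta Nt k) +
      (X.w ((cls p (psi j)).filter fun y => y ∈ Na) (cls p j \ X.lay c eta Nt k) +
      X.w ((cls p (psi j)).filter fun y => y ∈ Na) (univ \ cls p j)) := by
    rw [← X.w_univ, ← sub_nonneg]
    have h8 := X.w_sdiff_right ((cls p (psi j)).filter fun y => y ∈ Na)
      (Finset.subset_univ (cls p j))
    have h9 : X.w ((cls p (psi j)).filter fun y => y ∈ Na) (cls p j) ≤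
        X.w ((cls p (psi j)).filter fun y => y ∈ Na) (X.lay c eta Nt k) +
        X.w ((cls p (psi j)).filter fun y => y ∈ Na) (cls p j \ X.lay c eta Nt k) := by
      have h10 := X.w_sdiff_right ((cls p (psi j)).filter fun y => y ∈ Na)
        (Finset.inter_subset_left (s₁ := cls p j) (s₂ := X.lay c eta Nt k))
      rw [Finset.sdiff_inter_self_left] at h10
      have h11 := X.w_mono (Finset.Subset.refl ((cls p (psi j)).filter fun y => y ∈ Na))
        (Finset.inter_subset_right (s₁ := cls p j) (s₂ := X.lay c eta Nt k))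
      linarith
    linarith
  have h8 : X.w ((cls p (psi j)).filter fun y => y ∈ Na) (cls p j \ X.lay c eta Nt k) < th :=
    (X.w_le_m' _ _).trans_lt hlt
  have h9 : X.w ((cls p (psi j)).filter fun y => y ∈ Na) (univ \ cls p j) ≤ ea := by
    have h10 := hw (psi j)
    rw [hpsi j] at h10
    exact (X.w_mono hY (Finset.Subset.refl _)).trans h10
  linarith

end Pool.Agent.H46.BE
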