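import Pool.Agent.H46.BE.Fl

/-!
C4: partition of the states into parts with small cross flow and large inner flow.
-/

open Finset

namespace Pool.Agent.H46.BE

/-- the class of a part -/
def cls {St κ : Type} [Fintype St] [DecidableEq κ] (p : St → κ) (j : κ) : Finset St :=
  univ.filter fun s => p s = j

theorem mem_cls {St κ : Type} [Fintype St] [DecidableEq κ] {p : St → κ} {j : κ} {s : St} :
    s ∈ cls p j ↔ p s = j := by
  unfold cls
  rw [Finset.mem_filter]
  exact ⟨fun h => h.2, fun h => ⟨Finset.mem_univ s, h⟩⟩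

namespace Fl

variable {St : Type} [Fintype St] [DecidableEq St] {C : ℝ} (X : Fl St C)

/-- the flow in two steps between different parts -/
noncomputable def cross {κ : Type} [DecidableEq κ] (p : St → κ) : ℝ :=
  ∑ u, ∑ s, ∑ t, if p s = p t then 0 else X.W u s * X.W u t / X.pi u

/-- p is a partition into parts of mass at least th, with cross flow at most e and inner flow at
least tau -/
structure IsParts (th tau e : ℝ) {r : ℕ} (p : St → Fin r) : Prop where
  big : ∀ j, th ≤ X.m (cls p j)
  cr : X.cross p ≤ e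
  inn : ∀ j, ∀ B ⊆ cls p j, th ≤ X.m B → th ≤ X.m (cls p j \ B) →
    tau ≤ X.f2 B (cls p j \ B)

theorem cross_nonneg {κ : Type} [DecidableEq κ] (p : St → κ) : 0 ≤ X.cross p := by
  unfold cross
  refine Finset.sum_nonneg fun u _ => Finset.sum_nonneg fun s _ => Finset.sum_nonneg fun t _ => ?_
  split_ifs
  · exact le_rfl
  · exact div_nonneg (mul_nonneg (X.nonneg _ _) (X.nonneg _ _)) (X.pi_nonneg u)

/-- f2 as a sum over pairs -/
theorem f2_eq (A B : Finset St) : X.f2 A B =
    ∑ u, ∑ s, ∑ t, if s ∈ A ∧ t ∈ B then X.W u s * X.W u t / X.pi u else 0 := by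
  unfold f2 r
  refine Finset.sum_congr rfl fun u _ => ?_
  rw [Finset.sum_mul_sum, Finset.sum_div]
  have h1 : ∀ s, ∑ t, (if s ∈ A ∧ t ∈ B then X.W u s * X.W u t / X.pi u else 0) =
      if s ∈ A then (∑ t ∈ B, X.W u s * X.W u t) / X.pi u else 0 := by
    intro s
    by_cases h : s ∈ A
    · rw [if_pos h, Finset.sum_div, ← Finset.sum_filter]
      refine Finset.sum_congr ?_ fun t _ => rfl
      ext t
      simp [h]
    · rw [if_neg h]
      exact Finset.sum_eq_zero fun t _ => if_neg fun h' : _ ∧ _ => h h'.1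
  simp_rw [h1]
  rw [← Finset.sum_filter]
  refine Finset.sum_congr ?_ fun t _ => rfl
  ext t
  simp

/-- the cross flow after a cut -/
theorem cross_cut {κ : Type} [DecidableEq κ] (p : St → κ) {i j : κ} (hi : ∀ s, p s ≠ i)
    {B : Finset St} (hB : B ⊆ cls p j) :
    X.cross (fun s => if s ∈ B then i else p s) = X.cross p + 2 * X.f2 B (cls p j \ B) := by
  have h2 : 2 * X.f2 B (cls p j \ B) = X.f2 B (cls p j \ B) + X.f2 (cls p j \ B) B := by
    rw [X.f2_comm (cls p j \ B) B]
    ring
  rw [h2, X.f2_eq, X.f2_eq]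
  unfold cross
  rw [← add_assoc, ← Finset.sum_add_distrib, ← Finset.sum_add_distrib]
  refine Finset.sum_congr rfl fun u _ => ?_
  rw [← Finset.sum_add_distrib, ← Finset.sum_add_distrib]
  refine Finset.sum_congr rfl fun s _ => ?_
  rw [← Finset.sum_add_distrib, ← Finset.sum_add_distrib]
  refine Finset.sum_congr rfl fun t _ => ?_
  simp only [Finset.mem_sdiff, mem_cls]
  have hBj : ∀ s ∈ B, p s = j := fun s hs => mem_cls.1 (hB hs)
  by_cases hs : s ∈ B
  · by_cases ht : t ∈ B
    · simp [hs, ht, hBj s hs, hBj t ht]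
    · have h3 : i ≠ p t := fun h => hi t h.symm
      by_cases h4 : p t = j
      · have hij : i ≠ j := fun h => h3 (by rw [h4, h])
        simp [hs, ht, hBj s hs, h4, hij]
      · have h5 : ¬ j = p t := fun h => h4 h.symm
        simp [hs, ht, hBj s hs, h4, h3, h5]
  · by_cases ht : t ∈ B
    · have h3 : p s ≠ i := hi s
      by_cases h4 : p s = j
      · have hij : j ≠ i := fun h => h3 (by rw [h4, h])
        simp [hs, ht, hBj t ht, h4, hij]
      · simp [hs, ht, hBj t ht, h4, h3]
    · simp [hs, ht]

theorem sum_m_cls {r : ℕ} (p : St → ℕ) (hp : ∀ s, p s < r) :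
    ∑ j ∈ Finset.range r, X.m (cls p j) = 1 := by
  unfold m cls
  rw [← X.tot]
  exact Finset.sum_fiberwise_of_maps_to (fun s _ => Finset.mem_range.2 (hp s)) _

/-- the descending sequence of thresholds -/
noncomputable def thr (F : ℝ → ℝ) (R : ℕ) : ℕ → ℝ
  | 0 => 1
  | k + 1 => min (thr F R k) (F (thr F R k)) / (2 * R + 2)

theorem thr_pos {F : ℝ → ℝ} (hF : ∀ x, 0 < x → 0 < F x) (R : ℕ) : ∀ k, 0 < thr F R k
  | 0 => one_pos
  | k + 1 => by
    have h := thr_pos hF R k
    change 0 < min (thr F R k) (F (thr F R k)) / (2 * R + 2)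
    exact div_pos (lt_min h (hF _ h)) (by positivity)

theorem thr_succ_le {F : ℝ → ℝ} (hF : ∀ x, 0 < x → 0 < F x) (R k : ℕ) :
    thr F R (k + 1) * (2 * R + 2) ≤ thr F R k ∧ thr F R (k + 1) * (2 * R + 2) ≤ F (thr F R k) := by
  change min (thr F R k) (F (thr F R k)) / (2 * R + 2) * (2 * R + 2) ≤ _ ∧
    min (thr F R k) (F (thr F R k)) / (2 * R + 2) * (2 * R + 2) ≤ _
  have h : (2 * (R : ℝ) + 2) ≠ 0 := by positivity
  rw [div_mul_cancel₀ _ h]
  exact ⟨min_le_left _ _, min_le_right _ _⟩

/-- the induction of C4 -/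
theorem parts_aux {th : ℝ} (hth : 0 < th) {F : ℝ → ℝ} (hF : ∀ x, 0 < x → 0 < F x) (R : ℕ)
    (hR : 1 < (R + 1 : ℝ) * th) :
    ∀ (k i : ℕ) (p : St → ℕ), i + k = R → 1 ≤ i → (∀ s, p s < i) →
      (∀ j < i, th ≤ X.m (cls p j)) → X.cross p ≤ 2 * ((i : ℝ) - 1) * thr F R (k + 1) →
      ∃ k' ≤ R, ∃ (i' : ℕ) (p' : St → ℕ), (∀ s, p' s < i') ∧ (∀ j < i', th ≤ X.m (cls p' j)) ∧
        X.cross p' ≤ F (thr F R k') ∧ ∀ j < i', ∀ B ⊆ cls p' j, th ≤ X.m B →
          th ≤ X.m (cls p' j \ B) → thr F R k' ≤ X.f2 B (cls p' j \ B) := by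
  intro k
  induction k with
  | zero =>
    intro i p hik hi hp hbig hcr
    refine ⟨0, Nat.zero_le R, i, p, hp, hbig, ?_, ?_⟩
    · refine hcr.trans ?_
      have h1 := (thr_succ_le hF R 0).2
      have h2 : 0 < thr F R (0 + 1) := thr_pos hF R _
      have h3 : (i : ℝ) ≤ R := by
        have : i ≤ R := by omega
        exact_mod_cast this
      refine le_trans ?_ h1
      nlinarith
    · intro j hj B hB hB1 hB2
      exfalso
      -- a cut would give R + 1 parts of mass at least th
      have hi' : ∀ s, p s ≠ i := fun s h => absurd (hp s) (by omega)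
      have h1 := X.sum_m_cls p hp
      have h2 : X.m (cls p j) = X.m (cls p j \ B) + X.m B := by
        rw [X.m_sdiff hB]
        ring
      have h3 : (i : ℝ) * th + th ≤ ∑ j ∈ Finset.range i, X.m (cls p j) := by
        have h4 : ∑ j' ∈ Finset.range i, (th + if j' = j then th else 0) ≤
            ∑ j ∈ Finset.range i, X.m (cls p j) := by
          refine Finset.sum_le_sum fun j' hj' => ?_
          by_cases h5 : j' = j
          · rw [if_pos h5, h5, h2]
            linarith
          · rw [if_neg h5, add_zero]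
            exact hbig j' (Finset.mem_range.1 hj')
        refine le_trans (le_of_eq ?_) h4
        rw [Finset.sum_add_distrib, Finset.sum_const, Finset.card_range, nsmul_eq_mul,
          Finset.sum_ite_eq' (Finset.range i) j, if_pos (Finset.mem_range.2 hj)]
      have h6 : (i : ℝ) = R := by
        have : i = R := by omega
        exact_mod_cast this
      rw [h6] at h3
      linarith
  | succ k ih =>
    intro i p hik hi hp hbig hcr
    by_cases hcut : ∀ j < i, ∀ B ⊆ cls p j, th ≤ X.m B →
          th ≤ X.m (cls p j \ B) → thr F R (k + 1) ≤ X.f2 B (cls p j \ B)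
    · refine ⟨k + 1, by omega, i, p, hp, hbig, ?_, hcut⟩
      refine hcr.trans ?_
      have h1 := (thr_succ_le hF R (k + 1)).2
      have h2 : 0 < thr F R (k + 1 + 1) := thr_pos hF R _
      have h3 : (i : ℝ) ≤ R := by
        have : i ≤ R := by omega
        exact_mod_cast this
      refine le_trans ?_ h1
      nlinarith
    · push Not at hcut
      obtain ⟨j, hj, B, hB, hB1, hB2, hlt⟩ := hcut
      have hi' : ∀ s, p s ≠ i := fun s h => absurd (hp s) (by omega)
      have hBj : ∀ s ∈ B, p s = j := fun s hs => mem_cls.1 (hB hs)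
      refine ih (i + 1) (fun s => if s ∈ B then i else p s) (by omega) (by omega) ?_ ?_ ?_
      · intro s
        change (if s ∈ B then i else p s) < i + 1
        split_ifs
        · omega
        · have := hp s
          omega
      · intro j' hj'
        by_cases h1 : j' = i
        · refine hB1.trans (X.m_mono fun s hs => ?_)
          rw [mem_cls, h1]
          exact if_pos hs
        · by_cases h2 : j' = j
          · refine hB2.trans (X.m_mono fun s hs => ?_)
            rw [Finset.mem_sdiff, mem_cls] at hs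
            rw [mem_cls, h2]
            exact (if_neg hs.2).trans hs.1
          · refine (hbig j' (by omega)).trans (X.m_mono fun s hs => ?_)
            rw [mem_cls] at hs
            rw [mem_cls]
            refine (if_neg fun hsB => h2 ?_).trans hs
            rw [← hs, hBj s hsB]
      · rw [X.cross_cut p hi' hB]
        have h1 := (thr_succ_le hF R (k + 1)).1
        have h2 : 0 < thr F R (k + 1 + 1) := thr_pos hF R _
        have h3 : (i : ℝ) ≤ R := by
          have : i ≤ R := by omega
          exact_mod_cast this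
        have h4 : (1 : ℝ) ≤ i := by exact_mod_cast hi
        push_cast
        have h5 : thr F R (k + 1 + 1) ≤ thr F R (k + 1) := by
          refine le_trans ?_ h1
          nlinarith [(Nat.cast_nonneg R : (0 : ℝ) ≤ R)]
        nlinarith

end Fl

/-- C4. There is a finite set of positive numbers, which only depends on th and F, such that
every flow has a partition into parts for one of these numbers. -/
theorem parts {th : ℝ} (hth : 0 < th) (hth1 : th ≤ 1) {F : ℝ → ℝ} (hF : ∀ x, 0 < x → 0 < F x) :
    ∃ T : Finset ℝ, (∀ tau ∈ T, 0 < tau) ∧ ∀ (C : ℝ) (St : Type) [Fintype St] [DecidableEq St]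
      (X : Fl St C), ∃ tau ∈ T, ∃ (r : ℕ) (p : St → Fin r), X.IsParts th tau (F tau) p := by
  classical
  let R := ⌊1 / th⌋₊
  have hR : 1 < (R + 1 : ℝ) * th := by
    have h := Nat.lt_floor_add_one (1 / th)
    rw [div_lt_iff₀ hth] at h
    exact h
  have hR1 : 1 ≤ R := by
    refine Nat.le_floor ?_
    rw [Nat.cast_one, le_div_iff₀ hth, one_mul]
    exact hth1
  refine ⟨(Finset.range (R + 1)).image (Fl.thr F R), ?_, ?_⟩
  · intro tau h
    obtain ⟨k, _, rfl⟩ := Finset.mem_image.1 h
    exact Fl.thr_pos hF R k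
  · intro C St _ _ X
    obtain ⟨k', hk', i', p', h1, h2, h3, h4⟩ := X.parts_aux hth hF R hR (R - 1) 1 (fun _ => 0)
      (by omega) le_rfl (fun _ => Nat.zero_lt_one) (by
        intro j hj
        have : j = 0 := by omega
        have h5 : cls (fun _ : St => (0 : ℕ)) j = univ := by
          ext s
          simp [mem_cls, this]
        rw [h5, X.m_univ]
        exact hth1) (by
        have h6 : X.cross (fun _ : St => (0 : ℕ)) = 0 := by
          unfold Fl.cross
          simp
        rw [h6]
        simp)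
    refine ⟨Fl.thr F R k', Finset.mem_image.2 ⟨k', Finset.mem_range.2 (by omega), rfl⟩, i',
      fun s => ⟨p' s, h1 s⟩, ?_⟩
    have hcls : ∀ j : Fin i', cls (fun s => (⟨p' s, h1 s⟩ : Fin i')) j = cls p' (j : ℕ) := by
      intro j
      ext s
      rw [mem_cls, mem_cls, Fin.ext_iff]
    refine ⟨?_, ?_, ?_⟩
    · intro j
      rw [hcls]
      exact h2 j j.2
    · refine le_trans (le_of_eq ?_) h3
      unfold Fl.cross
      simp only [Fin.mk.injEq]
    · intro j B
      rw [hcls]
      exact h4 j j.2 B

end Pool.Agent.H46.BE
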